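import Pool.Agent.Q36.PF.Fm

/-!
# Mumford's problem for varieties dominated by varieties with maps to products

Let `Z` be a projective manifold, `V 1, ..., V s` projective manifolds, and let
`Z ⇢ V 1 × ... × V s` be a dominant rational map (its fibres are arbitrary). Let each `V j` be a
manifold whose canonical forms separate `m j ≥ 1` points in an open set: `m j` different general points
impose independent conditions on `H⁰(V j, K)`; or a curve of gonality greater than `m j`. (For `m j = 1`
the condition is `p_g(V j) > 0`.) Let `Z ⇢ X` be any dominant rational map of finite degree to a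
projective manifold `X`; it need not be a quotient by a group. For a general point `x` of `X` let `r_j`
be the number of different images in `V j` of the points over `x`, and for a set `T` of indices let
`a(T)` be the number of the points over `x` which have the same image in the product of the `V j`,
`j ∈ T`, as a given one of them. Assume that

* `r_j ≤ m j` for all `j` in some set `B` (which may be empty), and
* `a(Q^c) ≤ (1 + ∑ j ∈ Q, (m j - 1)) a({1, ..., s})` for all `Q` disjoint from `B`.

Then `X` has a nonzero holomorphic form of degree `p = ∑ dim V j`. In particular: if `p > 0` then `X` is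
not rationally connected and has a nonzero tensor differential, as predicted; so if `Z` is unirational
or has such maps with `p > 0`, for instance if `Z` is a product of varieties each of which is
unirational or one of the above, and if `X` has no tensor differentials then `X` is unirational.

Proof: the exterior products of the canonical forms of the `V j` are `p`-forms on `Z`, and their traces
are regular `p`-forms on `X`: regularity is reduced to the case of canonical forms by the exterior
multiplication with differentials of local coordinates at the generic point of a divisor. If all these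
traces vanish, there is a linear relation between the products of the values of the canonical forms
of the `V j` at the points of a general fibre; Hall's theorem on the marriage problem and the
separation property isolate one image point in the product. It is also proved that rationally
connected varieties have no tensor differentials: the pull-backs of a tensor differential of `X` under
the two evaluation maps of a family of rational curves on `X` agree.
-/

set_option autoImplicit false
set_option linter.overlappingInstances false

open FF IntermediateField Pool.Agent.W619.PQ Pool.Agent.W619.TW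

namespace Pool.Agent.Results.MP_4329d7_ag.DominatedByProducts

/-- Every nonconstant function on the curve with function field `F` has degree at least `γ`. -/
def GonalityGe (F : Type) [Field F] [Algebra ℂ F] (γ : ℕ) : Prop :=
  ∀ b : F, Transcendental ℂ b → γ ≤ Module.finrank ℂ⟮b⟯ F

/-- The coefficients of the canonical forms of the projective manifold of dimension `d` with function
field `K`, with respect to the rational vector fields `E`. -/
def canonicalForms {K : Type} [Field K] [Algebra ℂ K] (d : ℕ) (E : Fin d → Derivation ℂ K K) :
    Set K :=
  {f | ∃ η : (Fin d → Derivation ℂ K K) → K, IsPluriForm ℂ K d 1 η ∧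
    (∀ u : Place ℂ K, IsDivisorial u d → RegularAt u d η) ∧ η E = f}

/-- The canonical forms of the manifold with function field `K` separate `m` points in an open set:
the values of the canonical forms at at most `m` different generic points `φ i`, with coordinates in a
field `Ω`, are linearly independent. (For the coefficients with respect to a frame `E`; this does not
depend on the choice of the frame.) -/
def SeparatesPoints (K : Type) [Field K] [Algebra ℂ K] (d m : ℕ) : Prop :=
  ∀ (y : Fin d → K) (E : Fin d → Derivation ℂ K K), IsTranscendenceBasis ℂ y →
    (∀ i j, E i (y j) = if i = j then 1 else 0) →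
    ∀ (Ω : Type) [Field Ω] [Algebra ℂ Ω] (ι : Type) [Fintype ι] (φ : ι → (K →ₐ[ℂ] Ω))
      (c : ι → Ω), Function.Injective φ → Fintype.card ι ≤ m →
      (∀ f ∈ canonicalForms d E, ∑ i, c i * φ i f = 0) → ∀ i, c i = 0

/-- The projective manifolds of dimension `n` with function field `K` have a nonzero holomorphic form of
degree `p`: an alternating function of `p` rational vector fields which is regular along all divisors
(it takes vector fields regular along `v` to functions regular along `v`). -/
def HasHolomorphicForm (K : Type) [Field K] [Algebra ℂ K] (n p : ℕ) : Prop :=
  ∃ ω : (Derivation ℂ K K) [⋀^Fin p]→ₗ[K] K,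
    (∀ v : Place ℂ K, IsDivisorial v n → ∀ D : Fin p → Derivation ℂ K K,
      (∀ j, ∀ f, v.Reg f → v.Reg (D j f)) → v.Reg (ω D)) ∧ ω ≠ 0

/-- `u₁` and `u₂` are the two substitutions of parameters `t₁`, `t₂` for `t`, from `V(t)` to
`V(t₁)(t₂)`. -/
def AreSubstitutions {V : Type} [Field V] [Algebra ℂ V]
    (u₁ u₂ : RatFunc V →ₐ[ℂ] RatFunc (RatFunc V)) : Prop :=
  (∀ f, u₁ f = RatFunc.C f) ∧ (∀ a, u₂ (RatFunc.C a) = RatFunc.C (RatFunc.C a)) ∧
    u₂ RatFunc.X = RatFunc.X

/-- The fields `φ (K)` and `ψ (K)` generate a field of transcendence degree `r`. -/
def JointDimension {K S : Type} [Field K] [Field S] [Algebra ℂ K] [Algebra ℂ S]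
    (φ ψ : K →ₐ[ℂ] S) (r : ℕ) : Prop :=
  Algebra.trdeg ℂ (φ.fieldRange ⊔ ψ.fieldRange : IntermediateField ℂ S) = r

/-- The projective manifolds of dimension `n` with function field `K` are rationally connected: there is a
family of rational curves on them, parametrised by a variety with function field `V`, such that two
general points are on a curve of the family. The family is given by `u`, it takes a function on the
manifold to its restriction to the general curve, a function of the parameter `t` of this curve; the
field generated by the values of the functions at two points `t₁`, `t₂` of the general curve has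
transcendence degree `2 n`. -/
def IsRationallyConnected (K : Type) [Field K] [Algebra ℂ K] (n : ℕ) : Prop :=
  ∃ (V : Type) (_ : Field V) (_ : Algebra ℂ V) (q : ℕ), Algebra.EssFiniteType ℂ V ∧
    Algebra.trdeg ℂ V = q ∧ ∃ (u : K →ₐ[ℂ] RatFunc V)
      (u₁ u₂ : RatFunc V →ₐ[ℂ] RatFunc (RatFunc V)),
      AreSubstitutions u₁ u₂ ∧ JointDimension (u₁.comp u) (u₂.comp u) (n + n)

section

variable (L : Type) {M : Type} [Field L] [Field M] [Algebra ℂ L] [Algebra ℂ M] [Algebra L M]

/-- The number of the different images in the manifold with function field `F` of the points of a
general fibre of `Z ⇢ X`. -/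
noncomputable def coordinates (F : IntermediateField ℂ M) : ℕ :=
  Module.finrank L (IntermediateField.adjoin L (F : Set M))

/-- The number of the points of a general fibre of `Z ⇢ X` with the same images in the manifolds
`V j`, `j ∈ T`, as a given one. -/
noncomputable def agreeing {s : ℕ} (V : Fin s → IntermediateField ℂ M) (T : Finset (Fin s)) : ℕ :=
  Module.finrank (IntermediateField.adjoin L {z : M | ∃ j, j ∈ T ∧ z ∈ V j}) M

end

/-- **Mumford's problem for dominated varieties.** Let `M` be the function field of a projective
manifold `Z` of dimension `n`, `V j`, `j < s`, the function fields of projective manifolds of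
dimensions `d j` with a dominant rational map from `Z` to their product, whose canonical forms
separate `m j ≥ 1` points, or which are curves of gonality greater than `m j`. Let `L` be the function
field of a projective manifold `X` with a dominant rational map of finite degree from `Z` to `X`. Let
`B` be a set of indices such that the number of the images in `V j` of the points of a general fibre
is at most `m j` for `j ∈ B`, and assume that for every set `Q` of indices disjoint from `B` the number
of the points of a general fibre with the same images in all `V j`, `j ∉ Q`, as a given one is at most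
`1 + ∑ j ∈ Q, (m j - 1)` times the number of those with the same images in all the `V j`. Then:

(1) `X` has a nonzero holomorphic form of degree `∑ d j`.

(2) Let `Z` be unirational or let some `d j` be positive. If `X` has no nonzero tensor differentials, or
is rationally connected, then `Z` and `X` are unirational. -/
theorem result {L M : Type} [Field L] [Field M] [Algebra ℂ L] [Algebra ℂ M] [Algebra L M]
    [IsScalarTower ℂ L M] [FiniteDimensional L M] [Algebra.EssFiniteType ℂ M] (n : ℕ)
    (hM : Algebra.trdeg ℂ M = n) (s : ℕ) (d : Fin s → ℕ) (V : Fin s → IntermediateField ℂ M)
    (hess : ∀ i, Algebra.EssFiniteType ℂ (V i)) (hd : ∀ i, Algebra.trdeg ℂ (V i) = d i)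
    (hV : Algebra.trdeg ℂ (⨆ i, V i : IntermediateField ℂ M) = (∑ i, d i : ℕ))
    (m : Fin s → ℕ) (hm : ∀ i, 1 ≤ m i)
    (hsep : ∀ i, SeparatesPoints (V i) (d i) (m i) ∨
      (IsFF ℂ (V i) ∧ GonalityGe (V i) (m i + 1)))
    (B : Finset (Fin s)) (hB : ∀ i ∈ B, coordinates L (V i) ≤ m i)
    (hQ : ∀ Q : Finset (Fin s), Disjoint Q B →
      agreeing L V Qᶜ ≤ (1 + ∑ j ∈ Q, (m j - 1)) * agreeing L V Finset.univ) :
    HasHolomorphicForm L n (∑ i, d i) ∧
      (IsUnirational ℂ M n ∨ 0 < ∑ i, d i →
        TensorVanish ℂ L n ∨ IsRationallyConnected L n →
          IsUnirational ℂ M n ∧ IsUnirational ℂ L n) := by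
  have hrc : IsRationallyConnected L n → Q36.PF.RatConn ℂ L n := by
    rintro ⟨V, i1, i2, q, h1, h2, u, u₁, u₂, ⟨h3, h4, h5⟩, h6⟩
    exact ⟨V, i1, i2, q, h1, h2, u, u₁, u₂, h3, h4, h5, h6⟩
  have main := Q36.PF.main_form (L := L) V hM hd hV hm hsep B hB fun Q hQB => ?_
  · exact ⟨main.1, fun h1 h2 => main.2 h1 (h2.imp_right hrc)⟩
  have h1 := hQ Q hQB
  unfold agreeing at h1
  have h2 : {z : M | ∃ j, j ∈ Qᶜ ∧ z ∈ V j} = {z : M | ∃ j, j ∉ Q ∧ z ∈ V j} := by
    ext z
    simp
  have h3 : {z : M | ∃ j, j ∈ (Finset.univ : Finset (Fin s)) ∧ z ∈ V j} =
      {z : M | ∃ j, z ∈ V j} := by
    ext z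
    simp
  rw [h2, h3] at h1
  exact h1

end Pool.Agent.Results.MP_4329d7_ag.DominatedByProducts
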