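import Pool.Agent.Q26.CP.Four

/-!
# Mumford's conjecture: finitely many tensor powers suffice for each bounded type, and modulo primes

Fix a bounded type of projective manifolds, e.g. all the connected smooth `X ⊂ ℙ^N` of dimension `d`
and degree `δ`. The following are equivalent.

1. Mumford's conjecture for the complex manifolds `X` of this type: if
   `H⁰(X, (Ω¹)^{⊗ m}) = 0` for all `m > 0` then `X` is rationally connected.
2. There is a number `n` such that for all `X` of this type over all algebraically closed fields of
   characteristic zero: if `H⁰(X, (Ω¹)^{⊗ m}) = 0` for `1 ≤ m ≤ n`, then `X` contains a very free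
   rational curve of degree at most `n`.
3. There is a number `n` such that the same holds for all smooth projective varieties of this
   type over `F̄_p`, for infinitely many primes `p`.
4. There is a number `n` such that the same holds for all smooth projective varieties of this
   type over `F̄_p`, for all but finitely many primes `p`.

For every `n` the implication in 2 holds over one algebraically closed field of characteristic zero
if and only if it holds over `F̄_p` for infinitely many `p`, and if and only if it holds for almost
all `p`. In dimension at most three, where Mumford's conjecture is known, 2, 3 and 4 hold: so for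
threefolds of bounded degree finitely many tensor powers suffice, and in large characteristic the
vanishing for these finitely many `m` implies that the threefold is separably rationally connected.
-/

set_option autoImplicit false

namespace Pool.Agent.Results.MP_4329d7_ag.EffectiveModPrimes

open Pool.Agent.Q26.CP

/-- The smooth projective varieties over algebraically closed fields `K`. There are bounded types
`t : Ty` of dimension `dim t`; the varieties `X` of type `t` over `K` are parametrized by the points
of `K ^ k t` with the property `isVar t`. The property `vanish t n` says that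
`H⁰(X, (Ω¹)^{⊗ m}) = 0` for `1 ≤ m ≤ n`, and `veryFree t n` says that there is a morphism
`f : ℙ¹ → X` of degree at most `n` such that `f^* T_X` is ample. These are first-order properties of
the parameters (semicontinuity of cohomology, schemes of morphisms). Over the complex numbers
`tensors t x m` is the dimension of `H⁰(X, (Ω¹)^{⊗ m})`, and `RC` says that `X` is rationally
connected.

`vanish_iff` is the definition of `vanish`; `kollar` is the theorem of Kollár, Miyaoka and Mori that
a projective manifold is rationally connected iff it contains a very free rational curve, and `known`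
is Mumford's conjecture in dimension at most three. -/
structure Manifolds where
  Ty : Type
  dim : Ty → ℕ
  k : Ty → ℕ
  isVar : ∀ t, Pred (k t)
  vanish : ∀ t, ℕ → Pred (k t)
  veryFree : ∀ t, ℕ → Pred (k t)
  fo_isVar : ∀ t, IsFirstOrder (isVar t)
  fo_vanish : ∀ t n, IsFirstOrder (vanish t n)
  fo_veryFree : ∀ t n, IsFirstOrder (veryFree t n)
  vanish_anti : ∀ t (m n : ℕ), m ≤ n → ∀ (K : Type) [Field K] (x : Fin (k t) → K),
    vanish t n K x → vanish t m K x
  veryFree_mono : ∀ t (m n : ℕ), m ≤ n → ∀ (K : Type) [Field K] (x : Fin (k t) → K),
    veryFree t m K x → veryFree t n K x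
  tensors : ∀ t, (Fin (k t) → ℂ) → ℕ → ℕ
  RC : ∀ t, (Fin (k t) → ℂ) → Prop
  vanish_iff : ∀ t x, isVar t ℂ x → ∀ n,
    (vanish t n ℂ x ↔ ∀ m, 1 ≤ m → m ≤ n → tensors t x m = 0)
  kollar : ∀ t x, isVar t ℂ x → (RC t x ↔ ∃ n, veryFree t n ℂ x)
  known : ∀ t, dim t ≤ 3 → ∀ x, isVar t ℂ x → (∀ m, 0 < m → tensors t x m = 0) → RC t x

/-- Mumford's conjecture for the complex manifolds of type `t` -/
def Mumford (A : Manifolds) (t : A.Ty) : Prop :=
  ∀ x : Fin (A.k t) → ℂ, A.isVar t ℂ x → (∀ m, 0 < m → A.tensors t x m = 0) → A.RC t x

/-- for all varieties `X` of type `t` over `K`: if `H⁰(X, (Ω¹)^{⊗ m}) = 0` for `1 ≤ m ≤ n` then `X`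
contains a very free rational curve of degree at most `n` -/
def Effective (A : Manifolds) (t : A.Ty) (n : ℕ) (K : Type) [Field K] : Prop :=
  ∀ x : Fin (A.k t) → K, A.isVar t K x → A.vanish t n K x → A.veryFree t n K x

/-- there is a number which works for all algebraically closed fields of characteristic zero -/
def UniformCharZero (A : Manifolds) (t : A.Ty) : Prop :=
  ∃ n, ∀ (K : Type) [Field K] [IsAlgClosed K] [CharZero K], Effective A t n K

/-- there is a number which works for `F̄_p`, for infinitely many primes `p` -/
def UniformInfinitely (A : Manifolds) (t : A.Ty) : Prop :=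
  ∃ n, {p : Nat.Primes | Effective A t n (Fbar p)}.Infinite

/-- there is a number which works for `F̄_p`, for all but finitely many primes `p` -/
def UniformAlmost (A : Manifolds) (t : A.Ty) : Prop :=
  ∃ n, {p : Nat.Primes | ¬ Effective A t n (Fbar p)}.Finite

/-- Mumford's conjecture for one type as a `Problem` -/
def Manifolds.problem (A : Manifolds) (t : A.Ty) : Problem where
  k := A.k t
  hyp n := fun K _ x => A.isVar t K x ∧ A.vanish t n K x
  con := A.veryFree t
  fo_hyp n := (A.fo_isVar t).and (A.fo_vanish t n)
  fo_con := A.fo_veryFree t
  hyp_anti m n h K _ x hx := ⟨hx.1, A.vanish_anti t m n h K x hx.2⟩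
  con_mono := A.veryFree_mono t

theorem uniform_iff (A : Manifolds) (t : A.Ty) (n : ℕ) (K : Type) [Field K] :
    (A.problem t).Uniform n K ↔ Effective A t n K :=
  ⟨fun h x h1 h2 => h x ⟨h1, h2⟩, fun h x hx => h x hx.1 hx.2⟩

theorem mumford_iff (A : Manifolds) (t : A.Ty) : Mumford A t ↔ (A.problem t).Solved ℂ := by
  constructor
  · intro h x hx
    have h1 := (hx 0).1
    refine (A.kollar t x h1).1 (h x h1 fun m hm => ?_)
    exact (A.vanish_iff t x h1 m).1 (hx m).2 m hm le_rfl
  · intro h x h1 h2
    refine (A.kollar t x h1).2 (h x fun n => ⟨h1, (A.vanish_iff t x h1 n).2 ?_⟩)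
    exact fun m hm _ => h2 m hm

/-- For each bounded type `t` of projective manifolds the following are equivalent: Mumford's
conjecture for all complex `X` of type `t`; there is an `n` such that all `X` of type `t` over
algebraically closed fields of characteristic zero with `H⁰(X, (Ω¹)^{⊗ m}) = 0` for `1 ≤ m ≤ n`
contain a very free rational curve of degree at most `n`; there is an `n` with the same property for
all `X` of type `t` over `F̄_p`, for infinitely many primes `p`; there is such an `n` for all but
finitely many primes `p`. For each `n` the implication holds over one algebraically closed field of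
characteristic zero iff it holds over `F̄_p` for infinitely many `p` iff it holds for all but finitely
many `p`. All this is true if the dimension is at most three. -/
theorem result (A : Manifolds) (t : A.Ty) :
    [Mumford A t, UniformCharZero A t, UniformInfinitely A t, UniformAlmost A t].TFAE ∧
    (∀ (n : ℕ) (K : Type) [Field K] [IsAlgClosed K] [CharZero K],
      (Effective A t n K ↔ {p : Nat.Primes | Effective A t n (Fbar p)}.Infinite) ∧
      (Effective A t n K ↔ {p : Nat.Primes | ¬ Effective A t n (Fbar p)}.Finite)) ∧
    (A.dim t ≤ 3 → UniformCharZero A t ∧ UniformAlmost A t) := by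
  have h0 : [Mumford A t, UniformCharZero A t, UniformInfinitely A t,
      UniformAlmost A t].TFAE :=
    (A.problem t).four _ (mumford_iff A t) (fun n K _ => Effective A t n K)
      (fun n K _ => uniform_iff A t n K)
  refine ⟨h0, fun n K _ _ _ => (A.problem t).four' (fun n K _ => Effective A t n K)
    (fun n K _ => uniform_iff A t n K) n K, fun h => ?_⟩
  have h1 : Mumford A t := fun x hx hx' => A.known t h x hx hx'
  exact ⟨(h0.out 0 1).1 h1, (h0.out 0 3).1 h1⟩

end Pool.Agent.Results.MP_4329d7_ag.EffectiveModPrimes
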