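import Mathlib
import Pool.Agent.Q103.VR.Stm
import Pool.Agent.Q103.EC.Gen
import Pool.Agent.Q36.PF.Rc

/-!
# Symmetric differentials on varieties which carry a map with many preperiodic points

`X` is a complex projective manifold given by its function field `K`, of transcendence degree
`n = dim X`; `f = p / q` is a rational map of the projective line over `K` of degree `d` (a family of
rational maps over an open subset of `X`), and `prePer d p q` are its preperiodic points in `P^1(K)`
(preperiodic rational sections; they may collide, and `f` may degenerate).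

`DefinedOver d p q L` (`Pool/Agent/Q103/VR/Def.lean`): `f` is conjugate over an algebraic closure of `K` to a
map with coefficients algebraic over the field `L` between `ℂ` and `K`; `Isotrivial`: the same with
coefficients algebraic over `ℂ`, that is, in `ℂ`.

`ModuliFibration d p q E` (`Pool/Agent/Q103/VR/Stm.lean`): `E` is the function field of a variety `Y` with a
dominant rational map `X ⇢ Y` with irreducible general fibres (`E` is algebraically closed in `K`), `f` is
defined over `E` up to conjugation, and even conjugate, by a Moebius map over `K`, to a map over `E`,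
all the preperiodic points of `f` in `P^1(K)` come from points of `P^1(E)`, and `E` is algebraic over
every field over which `f` is defined up to conjugation; so `X ⇢ Y` is the Stein factorisation of
the moduli map `X ⇢ M_d`.

A tensor differential of degree `m` is a `K`-multilinear function `ω` of `m` rational vector fields
(derivations of `K`); it is holomorphic (`IsHolomorphic`) if it takes vector fields which are regular
along a prime divisor to functions which are regular there, for all prime divisors (of all models); it
is a symmetric differential, a section of `S^m Ω¹`, if it is a symmetric function.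
`TensorVanish ℂ K n`: `H⁰ (X, (Ω¹) ^ ⊗ m) = 0` for all `m ≥ 1`.

Theorem: if `f` has at least `B` preperiodic points in `P^1(K)`, `B` depending on `d` only, then for every
rational vector field `D` on `X` which is not tangent to the fibres of `X ⇢ Y` there is a holomorphic
symmetric differential `ω` of positive degree on `X` with `ω (D, ..., D) ≠ 0`. If `X` has no tensor
differentials, or is rationally connected, then `f` is isotrivial.

The last part of the theorem says that for all `d` and `B` there are such varieties of dimension `2 d - 2`
with generically finite moduli map `X ⇢ M_d` (`ManyPrep`).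

Proof (projects GT of helper41 and EC of helper103). The symmetric differentials are powers of
determinants of preperiodic points and of their derivatives, multiplied with a function which is built
from the resultant and the differences of the preperiodic points.
-/

set_option autoImplicit false

namespace Pool.Agent.Results.MP_4329d7_ag.ManyPreperiodicPoints

open FF Polynomial
open Pool.Agent.W602.GT
open Pool.Agent.W619.PQ (IsDivisorial)
open Pool.Agent.W619.TW (TensorVanish)
open Pool.Agent.Q103.EC (ManyPrep prePer Isotrivial)
open Pool.Agent.Q103.VR (ModuliFibration)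

/-- `ω` is a holomorphic tensor differential of degree `m` on the projective manifolds of dimension `n`
with function field `K`: a section of `(Ω¹) ^ ⊗ m`. -/
def IsHolomorphic {K : Type} [Field K] [Algebra ℂ K] (n : ℕ) {m : ℕ}
    (ω : MultilinearMap K (fun _ : Fin m => Derivation ℂ K K) K) : Prop :=
  ∀ P : Place ℂ K, IsDivisorial P n → ∀ D : Fin m → Derivation ℂ K K, (∀ j, DerReg P (D j)) →
    P.Reg (ω D)

/-- `ω` is symmetric. -/
def IsSymmetric {K : Type} [Field K] [Algebra ℂ K] {m : ℕ}
    (ω : MultilinearMap K (fun _ : Fin m => Derivation ℂ K K) K) : Prop :=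
  ∀ (σ : Equiv.Perm (Fin m)) (D : Fin m → Derivation ℂ K K), ω (fun i => D (σ i)) = ω D

/-- `u₁` and `u₂` are the two substitutions of parameters `t₁`, `t₂` for `t`, from `V(t)` to
`V(t₁)(t₂)`. -/
def AreSubstitutions {V : Type} [Field V] [Algebra ℂ V]
    (u₁ u₂ : RatFunc V →ₐ[ℂ] RatFunc (RatFunc V)) : Prop :=
  (∀ f, u₁ f = RatFunc.C f) ∧ (∀ a, u₂ (RatFunc.C a) = RatFunc.C (RatFunc.C a)) ∧
    u₂ RatFunc.X = RatFunc.X

/-- The fields `φ (K)` and `ψ (K)` generate a field of transcendence degree `r`. -/
def JointDimension {K S : Type} [Field K] [Field S] [Algebra ℂ K] [Algebra ℂ S]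
    (φ ψ : K →ₐ[ℂ] S) (r : ℕ) : Prop :=
  Algebra.trdeg ℂ (φ.fieldRange ⊔ ψ.fieldRange : IntermediateField ℂ S) = r

/-- The projective manifolds of dimension `n` with function field `K` are rationally connected: there is a
family of rational curves on them, parametrised by a variety with function field `V`, such that two
general points are on a curve of the family. The family is given by `u`, it takes a function on the
manifold to its restriction to the general curve, a function of the parameter `t` of this curve; the
field generated by the values of the functions at two points `t₁`, `t₂` of the general curve has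
transcendence degree `2 n`. -/
def IsRationallyConnected (K : Type) [Field K] [Algebra ℂ K] (n : ℕ) : Prop :=
  ∃ (V : Type) (_ : Field V) (_ : Algebra ℂ V) (q : ℕ), Algebra.EssFiniteType ℂ V ∧
    Algebra.trdeg ℂ V = q ∧ ∃ (u : K →ₐ[ℂ] RatFunc V)
      (u₁ u₂ : RatFunc V →ₐ[ℂ] RatFunc (RatFunc V)),
      AreSubstitutions u₁ u₂ ∧ JointDimension (u₁.comp u) (u₂.comp u) (n + n)

/-- For every rational vector field `D` which does not vanish on `E` there is a holomorphic symmetric
differential `ω` of positive degree with `ω (D, ..., D) ≠ 0`. -/
def DetectedByDifferentials {K : Type} [Field K] [Algebra ℂ K] (n : ℕ) (E : IntermediateField ℂ K) :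
    Prop :=
  ∀ D : Derivation ℂ K K, (∃ y ∈ E, D y ≠ 0) → ∃ m : ℕ, 1 ≤ m ∧
    ∃ ω : MultilinearMap K (fun _ : Fin m => Derivation ℂ K K) K,
      IsHolomorphic n ω ∧ IsSymmetric ω ∧ ω (fun _ => D) ≠ 0

/-- For every `d ≥ 2` there is `B` such that for every projective manifold `X` and every map of degree `d`
over its function field `K` with at least `B` preperiodic points in `P^1(K)` the holomorphic symmetric
differentials of `X` do not all vanish at a vector field which is not tangent to the fibres of the
moduli fibration; without holomorphic tensor differentials the map is isotrivial. -/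
theorem result (d : ℕ) (hd : 2 ≤ d) :
    (∃ B : ℕ, ∀ (K : Type) [Field K] [Algebra ℂ K] [Algebra.EssFiniteType ℂ K] (p q : K[X]),
      IsCoprime p q → max p.natDegree q.natDegree = d → (B : ℕ∞) ≤ (prePer d p q).encard →
      ∀ n : ℕ, Algebra.trdeg ℂ K = n →
      (∃ E : IntermediateField ℂ K, ModuliFibration d p q E ∧ DetectedByDifferentials n E) ∧
      (TensorVanish ℂ K n ∨ IsRationallyConnected K n → Isotrivial ℂ d p q)) ∧
    ∀ n : ℕ, 3 ≤ n → ∃ (K : Type) (_ : Field K) (_ : Algebra ℂ K) (p q : K[X]),
      ManyPrep ℂ d n p q ∧ Algebra.trdeg ℂ K = (2 * d - 2 : ℕ) ∧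
      ∃ (M : ℕ) (x : Fin (M + 1) → K), x ≠ 0 ∧ coords ℂ x = ⊤ := by
  refine ⟨?_, fun n hn => Pool.Agent.Q103.EC.exists_variety d hd n hn⟩
  obtain ⟨B, hB⟩ := Pool.Agent.Q103.VR.kernel d hd
  refine ⟨B, fun K _ _ _ p q hco hmax hmany n hn => ?_⟩
  have : CharZero K := charZero_of_injective_algebraMap (algebraMap ℂ K).injective
  obtain ⟨E, hE, hker⟩ := hB ℂ K p q hco hmax hmany n hn
  refine ⟨⟨E, hE, fun D hD => ?_⟩, fun h => ?_⟩
  · obtain ⟨m, hm, ω, h1, h2, h3⟩ := hker D hD
    exact ⟨m, hm, ω, fun P _ => h2 P, h1, h3⟩
  · have hT : TensorVanish ℂ K n := by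
      rcases h with h | h
      · exact h
      · obtain ⟨V, i1, i2, q', h1, h2, u, u₁, u₂, ⟨h3, h4, h5⟩, h6⟩ := h
        exact Q36.PF.rc_vanish hn ⟨V, i1, i2, q', h1, h2, u, u₁, u₂, h3, h4, h5, h6⟩
    rw [hE.isotrivial]
    intro y hy
    by_contra hcon
    -- a derivation which does not vanish at `y`
    have hder : ∃ D : Derivation ℂ K K, D y ≠ 0 := by
      by_contra hno
      push Not at hno
      exact hcon (Pool.Agent.Q103.VR.alg_of_der_zero hno)
    obtain ⟨D, hD⟩ := hder
    obtain ⟨m, hm, ω, -, h2, h3⟩ := hker D ⟨y, hy, hD⟩
    have h4 := hT m hm ω fun P _ D' hD' => h2 P D' hD'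
    rw [h4] at h3
    exact h3 rfl

end Pool.Agent.Results.MP_4329d7_ag.ManyPreperiodicPoints
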